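import Pool.Agent.H982Z.Nas.Main

/-!
# A model of ZF without amorphous sets in which some infinite discrete space has only scattered
Hausdorff compactifications
-/

set_option autoImplicit false

namespace Pool.Agent.Results.MP_634b21_lc.AModel

open Pool.Agent.H164Z.Bspt Pool.Agent.H982Z.Nas

/-- There is a model `(M, E)` of ZF in which `NAS` holds and `INSHC` fails. -/
theorem result : ∃ (M : Type) (E : M → M → Prop), IsZF E ∧ NAS E ∧ ¬ INSHC E :=
  main

end Pool.Agent.Results.MP_634b21_lc.AModel
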